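import Pool.Agent.Lib.MP_8dbd20_lc.Br.Spec

/-!
# MP_8dbd20_lc, Br1: evaluation of a fixed partial recursive code is arithmetical
-/

set_option linter.unusedVariables false

namespace B8d

open Nat.Partrec (Code)

private theorem Br1_pair (cf cg : Code) (x n : ℕ) :
    x ∈ (Code.pair cf cg).eval n ↔
      ∃ a b, a ∈ cf.eval n ∧ b ∈ cg.eval n ∧ x = Nat.pair a b := by
  simp only [Code.eval, Seq.seq, Part.bind_eq_bind, Part.mem_bind_iff, Part.map_eq_map,
    Part.mem_map_iff]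
  constructor
  · rintro ⟨f, ⟨a, ha, rfl⟩, b, hb, rfl⟩
    exact ⟨a, b, ha, hb, rfl⟩
  · rintro ⟨a, b, ha, hb, rfl⟩
    exact ⟨_, ⟨a, ha, rfl⟩, b, hb, rfl⟩

private theorem Br1_comp (cf cg : Code) (x n : ℕ) :
    x ∈ (Code.comp cf cg).eval n ↔ ∃ a, a ∈ cg.eval n ∧ x ∈ cf.eval a := by
  simp only [Code.eval, Part.bind_eq_bind, Part.mem_bind_iff]

private theorem Br1_prec_step (cf cg : Code) (a k x : ℕ) :
    x ∈ (Code.prec cf cg).eval (Nat.pair a (k + 1)) ↔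
      ∃ y, y ∈ (Code.prec cf cg).eval (Nat.pair a k) ∧
        x ∈ cg.eval (Nat.pair a (Nat.pair k y)) := by
  rw [show k + 1 = k.succ from rfl, Code.eval_prec_succ]
  simp only [Part.bind_eq_bind, Part.mem_bind_iff]

private theorem Br1_prec_aux (cf cg : Code) (a : ℕ) : ∀ m x : ℕ,
    x ∈ (Code.prec cf cg).eval (Nat.pair a m) ↔
      ∃ f : ℕ → ℕ, f 0 ∈ cf.eval a ∧
        (∀ i, i < m → f (i + 1) ∈ cg.eval (Nat.pair a (Nat.pair i (f i)))) ∧ f m = x := by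
  intro m
  induction m with
  | zero =>
    intro x
    rw [Code.eval_prec_zero]
    constructor
    · intro h
      exact ⟨fun _ => x, h, fun i hi => absurd hi (Nat.not_lt_zero i), rfl⟩
    · rintro ⟨f, h0, -, rfl⟩
      exact h0
  | succ m ih =>
    intro x
    rw [Br1_prec_step]
    constructor
    · rintro ⟨y, hy, hx⟩
      obtain ⟨f, h0, h1, h2⟩ := (ih y).1 hy
      refine ⟨fun i => if i ≤ m then f i else x, ?_, ?_, ?_⟩
      · simpa using h0
      · intro i hi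
        have hi' : i ≤ m := Nat.lt_succ_iff.1 hi
        rcases Nat.lt_or_ge i m with h | h
        · have h3 : i + 1 ≤ m := h
          simp only [hi', h3, if_true]
          exact h1 i h
        · have h3 : i = m := le_antisymm hi' h
          subst h3
          have h4 : ¬ (i + 1 ≤ i) := by omega
          simp only [le_refl, if_true, h4, if_false]
          rw [h2]; exact hx
      · have h4 : ¬ (m + 1 ≤ m) := by omega
        simp only [h4, if_false]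
    · rintro ⟨f, h0, h1, rfl⟩
      refine ⟨f m, (ih (f m)).2 ⟨f, h0, fun i hi => h1 i (Nat.lt_succ_of_lt hi), rfl⟩, ?_⟩
      exact h1 m (Nat.lt_succ_self m)

private theorem Br1_prec (cf cg : Code) (x n : ℕ) :
    x ∈ (Code.prec cf cg).eval n ↔
      ∃ w, Nat.beta w 0 ∈ cf.eval n.unpair.1 ∧
        (∀ i, i < n.unpair.2 → Nat.beta w (i + 1) ∈
          cg.eval (Nat.pair n.unpair.1 (Nat.pair i (Nat.beta w i)))) ∧
        Nat.beta w n.unpair.2 = x := by
  have h := Br1_prec_aux cf cg n.unpair.1 n.unpair.2 x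
  rw [Nat.pair_unpair] at h
  rw [h]
  constructor
  · rintro ⟨f, h0, h1, h2⟩
    obtain ⟨w, hw⟩ := exists_beta f n.unpair.2
    refine ⟨w, ?_, ?_, ?_⟩
    · rw [hw 0 (Nat.zero_le _)]; exact h0
    · intro i hi
      rw [hw (i + 1) hi, hw i hi.le]; exact h1 i hi
    · rw [hw _ le_rfl]; exact h2
  · rintro ⟨w, h0, h1, h2⟩
    exact ⟨Nat.beta w, h0, h1, h2⟩

private theorem Br1_rfind (cf : Code) (x n : ℕ) :
    x ∈ (Code.rfind' cf).eval n ↔
      ∃ k, x = k + n.unpair.2 ∧ 0 ∈ cf.eval (Nat.pair n.unpair.1 (k + n.unpair.2)) ∧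
        ∀ j, j < k → ∃ y, y ≠ 0 ∧ y ∈ cf.eval (Nat.pair n.unpair.1 (j + n.unpair.2)) := by
  simp only [Code.eval, Nat.unpaired, Part.mem_map_iff, Nat.mem_rfind, Part.map_eq_map]
  constructor
  · rintro ⟨k, ⟨⟨y, hy, hy0⟩, h2⟩, rfl⟩
    refine ⟨k, rfl, ?_, ?_⟩
    · have : y = 0 := by simpa using hy0
      rw [this] at hy; exact hy
    · intro j hj
      obtain ⟨z, hz, hz0⟩ := h2 hj
      exact ⟨z, by simpa using hz0, hz⟩
  · rintro ⟨k, rfl, h1, h2⟩
    refine ⟨k, ⟨⟨0, h1, by simp⟩, ?_⟩, rfl⟩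
    intro j hj
    obtain ⟨z, hz0, hz⟩ := h2 j hj
    exact ⟨z, hz, by simpa using hz0⟩

theorem pBr1 : S_Br1 := by
  intro c
  induction c with
  | zero =>
    refine (Ar.eqN (AN.var 0) (AN.const 0)).congr fun v V => ?_
    show v 0 ∈ Part.some 0 ↔ _
    exact Part.mem_some_iff
  | succ =>
    refine (Ar.eqN (AN.var 0) (AN.add (AN.var 1) (AN.const 1))).congr fun v V => ?_
    show v 0 ∈ Part.some (v 1 + 1) ↔ _
    exact Part.mem_some_iff
  | left =>
    refine (Ar.eqN (AN.var 0) (AN.fst (AN.var 1))).congr fun v V => ?_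
    show v 0 ∈ Part.some ((v 1).unpair.1) ↔ _
    exact Part.mem_some_iff
  | right =>
    refine (Ar.eqN (AN.var 0) (AN.snd (AN.var 1))).congr fun v V => ?_
    show v 0 ∈ Part.some ((v 1).unpair.2) ↔ _
    exact Part.mem_some_iff
  | pair cf cg ihf ihg =>
    have hf := @Ar.s20 (fun x n => x ∈ cf.eval n) ihf
    have hg := @Ar.s20 (fun x n => x ∈ cg.eval n) ihg
    refine Ar.congr (R := fun v V => ∃ a b, a ∈ cf.eval (v 1) ∧ b ∈ cg.eval (v 1) ∧
      v 0 = Nat.pair a b) ?_ fun v V => Br1_pair cf cg _ _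
    refine Ar.exN (R := fun a v V => ∃ b, a ∈ cf.eval (v 1) ∧ b ∈ cg.eval (v 1) ∧
      v 0 = Nat.pair a b) ?_
    refine Ar.exN (R := fun b v V => v 0 ∈ cf.eval (v 2) ∧ b ∈ cg.eval (v 2) ∧
      v 1 = Nat.pair (v 0) b) ?_
    exact (hf (AN.var 1) (AN.var 3)).and ((hg (AN.var 0) (AN.var 3)).and
      (Ar.eqN (AN.var 2) (AN.pair (AN.var 1) (AN.var 0))))
  | comp cf cg ihf ihg =>
    have hf := @Ar.s20 (fun x n => x ∈ cf.eval n) ihf
    have hg := @Ar.s20 (fun x n => x ∈ cg.eval n) ihg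
    refine Ar.congr (R := fun v V => ∃ a, a ∈ cg.eval (v 1) ∧ v 0 ∈ cf.eval a) ?_
      fun v V => Br1_comp cf cg _ _
    refine Ar.exN (R := fun a v V => a ∈ cg.eval (v 1) ∧ v 0 ∈ cf.eval a) ?_
    exact (hg (AN.var 0) (AN.var 2)).and (hf (AN.var 1) (AN.var 0))
  | prec cf cg ihf ihg =>
    have hf := @Ar.s20 (fun x n => x ∈ cf.eval n) ihf
    have hg := @Ar.s20 (fun x n => x ∈ cg.eval n) ihg
    refine Ar.congr (R := fun v V => ∃ w, Nat.beta w 0 ∈ cf.eval (v 1).unpair.1 ∧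
        (∀ i, i < (v 1).unpair.2 → Nat.beta w (i + 1) ∈
          cg.eval (Nat.pair (v 1).unpair.1 (Nat.pair i (Nat.beta w i)))) ∧
        Nat.beta w (v 1).unpair.2 = v 0) ?_ fun v V => Br1_prec cf cg _ _
    refine Ar.exN (R := fun w v V => Nat.beta w 0 ∈ cf.eval (v 1).unpair.1 ∧
        (∀ i, i < (v 1).unpair.2 → Nat.beta w (i + 1) ∈
          cg.eval (Nat.pair (v 1).unpair.1 (Nat.pair i (Nat.beta w i)))) ∧
        Nat.beta w (v 1).unpair.2 = v 0) ?_
    refine (hf (AN.beta (AN.var 0) (AN.const 0)) (AN.fst (AN.var 2))).and (Ar.and ?_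
      (Ar.eqN (AN.beta (AN.var 0) (AN.snd (AN.var 2))) (AN.var 1)))
    refine Ar.allN (R := fun i v V => i < (v 2).unpair.2 → Nat.beta (v 0) (i + 1) ∈
          cg.eval (Nat.pair (v 2).unpair.1 (Nat.pair i (Nat.beta (v 0) i)))) ?_
    refine (Ar.lt (AN.var 0) (AN.snd (AN.var 3))).imp ?_
    exact hg (AN.beta (AN.var 1) (AN.add (AN.var 0) (AN.const 1)))
      (AN.pair (AN.fst (AN.var 3)) (AN.pair (AN.var 0) (AN.beta (AN.var 1) (AN.var 0))))
  | rfind' cf ihf =>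
    have hf := @Ar.s20 (fun x n => x ∈ cf.eval n) ihf
    refine Ar.congr (R := fun v V => ∃ k, v 0 = k + (v 1).unpair.2 ∧
        0 ∈ cf.eval (Nat.pair (v 1).unpair.1 (k + (v 1).unpair.2)) ∧
        ∀ j, j < k → ∃ y, y ≠ 0 ∧ y ∈ cf.eval (Nat.pair (v 1).unpair.1 (j + (v 1).unpair.2))) ?_
      fun v V => Br1_rfind cf _ _
    refine Ar.exN (R := fun k v V => v 0 = k + (v 1).unpair.2 ∧
        0 ∈ cf.eval (Nat.pair (v 1).unpair.1 (k + (v 1).unpair.2)) ∧
        ∀ j, j < k → ∃ y, y ≠ 0 ∧ y ∈ cf.eval (Nat.pair (v 1).unpair.1 (j + (v 1).unpair.2))) ?_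
    refine (Ar.eqN (AN.var 1) (AN.add (AN.var 0) (AN.snd (AN.var 2)))).and (Ar.and
      (hf (AN.const 0) (AN.pair (AN.fst (AN.var 2)) (AN.add (AN.var 0) (AN.snd (AN.var 2))))) ?_)
    refine Ar.allN (R := fun j v V => j < v 0 → ∃ y, y ≠ 0 ∧
      y ∈ cf.eval (Nat.pair (v 2).unpair.1 (j + (v 2).unpair.2))) ?_
    refine (Ar.lt (AN.var 0) (AN.var 1)).imp ?_
    refine Ar.exN (R := fun y v V => y ≠ 0 ∧
      y ∈ cf.eval (Nat.pair (v 3).unpair.1 (v 0 + (v 3).unpair.2))) ?_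
    exact (Ar.neN (AN.var 0) (AN.const 0)).and (hf (AN.var 0)
      (AN.pair (AN.fst (AN.var 4)) (AN.add (AN.var 1) (AN.snd (AN.var 4)))))

end B8d
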