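import Pool.Agent.Lib.MP_8dbd20_lc.Br.Spec

/-!
# MP_8dbd20_lc, Br2: algebraic formulas are uniformly definable in framework 1
-/

set_option linter.unusedVariables false

namespace B8d

open Pool.Agent.Lib.Z2 (Str Dfn DF Fa Sat Fm Tm jn pre Shp IsZ2 IsBeta HasAC)
open Nat.Partrec (Code)

private theorem Br2_jn (i j : ℕ) : AS (fun _ V => jn (V i) (V j)) := by
  refine Ar.congr (R := fun v V => (v 0 % 2 = 0 ∧ v 0 / 2 ∈ V i) ∨ (¬ v 0 % 2 = 0 ∧ v 0 / 2 ∈ V j))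
    ?_ fun v V => ?_
  · exact ((Ar.eqN (AN.mod (AN.var 0) (AN.const 2)) (AN.const 0)).and
      (Ar.mem (AN.div (AN.var 0) (AN.const 2)) (AS.var i))).or
      (((Ar.eqN (AN.mod (AN.var 0) (AN.const 2)) (AN.const 0)).not).and
      (Ar.mem (AN.div (AN.var 0) (AN.const 2)) (AS.var j)))
  · show (if v 0 % 2 = 0 then v 0 / 2 ∈ V i else v 0 / 2 ∈ V j) ↔ _
    by_cases h : v 0 % 2 = 0 <;> simp [h]

private theorem Br2_pre (h1 : S_Br1) (c : Code) : AS (fun _ V => pre c (V 0)) := by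
  have hc := @Ar.s20 (fun x n => x ∈ c.eval n) (h1 c)
  refine Ar.congr (R := fun v V => ∃ m, m + 1 ∈ c.eval (v 0) ∧ m ∈ V 0) ?_ fun v V => Iff.rfl
  refine Ar.exN (R := fun m v V => m + 1 ∈ c.eval (v 0) ∧ m ∈ V 0) ?_
  exact (hc (AN.add (AN.var 0) (AN.const 1)) (AN.var 1)).and (Ar.memv 0 0)

theorem pBr2 (h1 : S_Br1) : S_Br2 := by
  intro φ
  induction φ with
  | mem => exact (Ar.memv 0 0).ud
  | isC => exact UD.cv 0
  | neg φ ih => exact ih.not
  | and φ ψ ih1 ih2 => exact ih1.and ih2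
  | exN φ ih =>
    refine UD.exN (R := fun U C m v V => Sat (SU U C) φ (Nat.pair m (v 0)) (V 0)) ?_
    exact UD.s11 (R := fun U C n X => Sat (SU U C) φ n X) ih (AN.pair (AN.var 0) (AN.var 1))
      (AS.var 0)
  | exR φ ih =>
    refine UD.exS (R := fun U C Y v V => Sat (SU U C) φ (v 0) (jn Y (V 0))) ?_
    exact UD.s11 (R := fun U C n X => Sat (SU U C) φ n X) ih (AN.var 0) (Br2_jn 0 1)
  | subN c φ ih =>
    have hc := @Ar.s20 (fun x n => x ∈ c.eval n) (h1 c)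
    refine UD.exN (R := fun U C m v V => m ∈ c.eval (v 0) ∧ Sat (SU U C) φ m (V 0)) ?_
    refine UD.and (hc (AN.var 0) (AN.var 1)).ud ?_
    exact UD.s11 (R := fun U C n X => Sat (SU U C) φ n X) ih (AN.var 0) (AS.var 0)
  | subR c φ ih =>
    exact UD.s11 (R := fun U C n X => Sat (SU U C) φ n X) ih (AN.var 0) (Br2_pre h1 c)

end B8d
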