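import Pool.Agent.Lib.MP_8dbd20_lc.Br.Spec

/-!
# MP_8dbd20_lc, Br3: formulas of framework 1 are definable in framework 2
-/

set_option linter.unusedVariables false

namespace B8d

open Pool.Agent.Lib.Z2 (Str Dfn DF Fa Sat Fm Tm jn pre Shp IsZ2 IsBeta HasAC Smp)

theorem pBr3 : S_Br3 := by
  intro S _ φ
  induction φ with
  | fls =>
    intro α _ e E he hE
    exact (Pool.Agent.Lib.Z2.dfn_true (S := S) (α := α)).not.congr
      (fun a _ => ⟨fun h => h.elim, fun h => h trivial⟩)
  | add i j k =>
    intro α _ e E he hE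
    exact Dfn.eq (DF.add (he i) (he j)) (he k)
  | mul i j k =>
    intro α _ e E he hE
    exact Dfn.eq (DF.mul (he i) (he j)) (he k)
  | mem i j => intro α _ e E he hE; exact Dfn.mem (he i) (hE j)
  | cc j => intro α _ e E he hE; exact Dfn.isC (hE j)
  | neg φ ih => intro α _ e E he hE; exact (ih e E he hE).not
  | and φ ψ ih1 ih2 => intro α _ e E he hE; exact (ih1 e E he hE).and (ih2 e E he hE)
  | allN φ ih =>
    intro α _ e E he hE
    refine Dfn.allN (P := fun (a : α) (n : ℕ) => eval S.U S.C φ (nc n (e a)) (E a)) ?_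
    refine ih (fun x : α × ℕ => nc x.2 (e x.1)) (fun x : α × ℕ => E x.1) ?_ ?_
    · intro i
      rcases i with _ | i
      · exact Smp.id.snd.df
      · exact (he i).comp Smp.id.fst.df
    · intro i; exact (hE i).comp Smp.id.fst.df
  | allS φ ih =>
    intro α _ e E he hE
    refine Dfn.allR (P := fun (a : α) (X : Set ℕ) => eval S.U S.C φ (e a) (sc X (E a))) ?_
    refine ih (fun x : α × Set ℕ => e x.1) (fun x : α × Set ℕ => sc x.2 (E x.1)) ?_ ?_
    · intro i; exact (he i).comp Smp.id.fst.df
    · intro i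
      rcases i with _ | i
      · exact Smp.id.snd.df
      · exact (hE i).comp Smp.id.fst.df

end B8d
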