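import Pool.Agent.Lib.MP_8dbd20_lc.Br.Spec

/-!
# MP_8dbd20_lc, Br4: arithmetical relations are definable in framework 2
-/

set_option linter.unusedVariables false

namespace B8d

open Pool.Agent.Lib.Z2 (Str Dfn DF Fa Sat Fm Tm jn pre Shp IsZ2 IsBeta HasAC)

theorem pBr4 (h3 : S_Br3) : S_Br4 := by
  intro S _ R hR α _ e E he hE
  obtain ⟨φ, ha, hφ⟩ := hR
  refine (h3 S φ e E he hE).congr fun a _ => ?_
  exact (hφ _ _).trans (eval_arith ha _ _ _ _ _ _)

end B8d
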