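import Pool.Agent.Lib.MP_8dbd20_lc.Br.Spec

/-!
# MP_8dbd20_lc, Br5: good structures of framework 1 are good in framework 2
-/

set_option linter.unusedVariables false

namespace B8d

open Pool.Agent.Lib.Z2 (Str Dfn DF Fa Sat Fm Tm jn pre Shp IsZ2 IsBeta HasAC)
open Nat.Partrec (Code)

private theorem Br5_jn (i j : ℕ) : AS (fun _ V => jn (V i) (V j)) := by
  refine Ar.congr (R := fun v V => (v 0 % 2 = 0 ∧ v 0 / 2 ∈ V i) ∨ (¬ v 0 % 2 = 0 ∧ v 0 / 2 ∈ V j))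
    ?_ fun v V => ?_
  · exact ((Ar.eqN (AN.mod (AN.var 0) (AN.const 2)) (AN.const 0)).and
      (Ar.mem (AN.div (AN.var 0) (AN.const 2)) (AS.var i))).or
      (((Ar.eqN (AN.mod (AN.var 0) (AN.const 2)) (AN.const 0)).not).and
      (Ar.mem (AN.div (AN.var 0) (AN.const 2)) (AS.var j)))
  · show (if v 0 % 2 = 0 then v 0 / 2 ∈ V i else v 0 / 2 ∈ V j) ↔ _
    by_cases h : v 0 % 2 = 0 <;> simp [h]

private theorem Br5_pre (h1 : S_Br1) (c : Code) : AS (fun _ V => pre c (V 0)) := by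
  have hc := @Ar.s20 (fun x n => x ∈ c.eval n) (h1 c)
  refine Ar.congr (R := fun v V => ∃ m, m + 1 ∈ c.eval (v 0) ∧ m ∈ V 0) ?_ fun v V => Iff.rfl
  refine Ar.exN (R := fun m v V => m + 1 ∈ c.eval (v 0) ∧ m ∈ V 0) ?_
  exact (hc (AN.add (AN.var 0) (AN.const 1)) (AN.var 1)).and (Ar.memv 0 0)

private theorem Br5_compl : AS (fun _ V => (V 0)ᶜ) :=
  Ar.congr (Ar.memv 0 0).not fun v V => Iff.rfl

private theorem Br5_ex : AS (fun _ V => {n | ∃ m, Nat.pair m n ∈ V 0}) := by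
  refine Ar.congr (R := fun v V => ∃ m, Nat.pair m (v 0) ∈ V 0) ?_ fun v V => Iff.rfl
  refine Ar.exN (R := fun m v V => Nat.pair m (v 0) ∈ V 0) ?_
  exact Ar.mem (AN.pair (AN.var 0) (AN.var 1)) (AS.var 0)

theorem pBr5 (h1 : S_Br1) : S_Br5 := by
  intro U C hg
  obtain ⟨hC, ⟨X0, hX0⟩, hcl⟩ := hg
  have key : ∀ t : (ℕ → ℕ) → (ℕ → Set ℕ) → Set ℕ, AS t → ∀ X ∈ U, ∀ Y ∈ U,
      t (fun _ => 0) (sc X fun _ => Y) ∈ U := by
    intro t ht X hX Y hY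
    refine ht.closed hcl _ _ fun i => ?_
    cases i with
    | zero => exact hX
    | succ i => exact hY
  have hj : ∀ X ∈ U, ∀ Y ∈ U, jn X Y ∈ U := fun X hX Y hY => key _ (Br5_jn 0 1) X hX Y hY
  refine ⟨?_, ?_, ?_, ?_, ?_, ?_, ?_, ?_⟩
  · exact fun X hX => hC hX
  · exact fun X hX => hX
  · exact key _ AS.empty X0 hX0 X0 hX0
  · exact hj
  · exact hj
  · exact fun c X hX => key _ (Br5_pre h1 c) X hX X hX
  · exact fun X hX => key _ Br5_compl X hX X hX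
  · exact fun X hX => key _ Br5_ex X hX X hX

end B8d
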