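import Pool.Agent.Lib.MP_8dbd20_lc.Br.Spec

/-!
# MP_8dbd20_lc, Br6: definable classes of framework 2 are defined by formulas of framework 1
-/

set_option linter.unusedVariables false

namespace B8d

open Pool.Agent.Lib.Z2 (Str Dfn DF Fa Sat Fm Tm jn pre Shp IsZ2 IsBeta HasAC)
open Nat.Partrec (Code)

private theorem Br6_jn {s t : (ℕ → ℕ) → (ℕ → Set ℕ) → Set ℕ} (hs : AS s) (ht : AS t) :
    AS (fun v V => jn (s v V) (t v V)) := by
  have hs' : AS (fun v V => s (fun i => v (i + 1)) V) := hs.ren (fun i => i + 1) (fun j => j)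
  have ht' : AS (fun v V => t (fun i => v (i + 1)) V) := ht.ren (fun i => i + 1) (fun j => j)
  refine Ar.congr (R := fun v V => (v 0 % 2 = 0 ∧ v 0 / 2 ∈ s (fun i => v (i + 1)) V) ∨
    (¬ v 0 % 2 = 0 ∧ v 0 / 2 ∈ t (fun i => v (i + 1)) V)) ?_ fun v V => ?_
  · exact ((Ar.eqN (AN.mod (AN.var 0) (AN.const 2)) (AN.const 0)).and
      (Ar.mem (AN.div (AN.var 0) (AN.const 2)) hs')).or
      (((Ar.eqN (AN.mod (AN.var 0) (AN.const 2)) (AN.const 0)).not).and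
      (Ar.mem (AN.div (AN.var 0) (AN.const 2)) ht'))
  · show (if v 0 % 2 = 0 then v 0 / 2 ∈ s (fun i => v (i + 1)) V
      else v 0 / 2 ∈ t (fun i => v (i + 1)) V) ↔ _
    by_cases h : v 0 % 2 = 0 <;> simp [h]

private theorem Br6_sc {U : Set (Set ℕ)} {X A : Set ℕ} (hX : X ∈ U) (hA : A ∈ U) :
    ∀ i, sc X (fun _ => A) i ∈ U := by
  intro i
  cases i with
  | zero => exact hX
  | succ i => exact hA

theorem pBr6 (h2 : S_Br2) : S_Br6 := by
  intro U C hg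
  refine ⟨?_, ?_, ?_⟩
  · rintro P ⟨φ, A, hA, h⟩
    obtain ⟨ψ, hψ⟩ := UD.s11 (R := fun U C n X => Sat (SU U C) φ n X) (h2 φ) (AN.var 0)
      (Br6_jn (AS.var 0) AS.empty)
    refine ⟨ψ, A, hA, fun n => ?_⟩
    refine (h n trivial).trans ?_
    exact hψ U C hg (nc n fun _ => 0) (fun _ => A) (fun _ => hA)
  · rintro P ⟨φ, A, hA, h⟩
    obtain ⟨ψ, hψ⟩ := UD.s11 (R := fun U C n X => Sat (SU U C) φ n X) (h2 φ)
      (AN.pair (AN.var 0) (AN.const 0)) (Br6_jn (AS.var 1) (Br6_jn AS.empty (AS.var 0)))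
    refine ⟨ψ, A, hA, fun n X hX => ?_⟩
    refine (h (n, X) ⟨trivial, hX⟩).trans ?_
    exact hψ U C hg (nc n fun _ => 0) (sc X fun _ => A) (Br6_sc hX hA)
  · rintro P ⟨φ, A, hA, h⟩
    obtain ⟨ψ, hψ⟩ := UD.s11 (R := fun U C n X => Sat (SU U C) φ n X) (h2 φ)
      (AN.const 0) (Br6_jn (AS.var 1) (AS.var 0))
    refine ⟨ψ, A, hA, fun X hX => ?_⟩
    refine (h X hX).trans ?_
    exact hψ U C hg (fun _ => 0) (sc X fun _ => A) (Br6_sc hX hA)

end B8d
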