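import Pool.Agent.Lib.MP_8dbd20_lc.Br.Spec

/-! # MP_8dbd20_lc, block Br: the standard language and framework 1 -/

set_option linter.unusedVariables false

namespace B8d

open Pool.Agent.Lib.Z2 (Str Dfn DF Fa Sat Fm Tm jn pre Shp IsZ2 IsBeta HasAC)

private theorem Br7_ex_nc (n : ℕ) (v : ℕ → ℕ) : Pool.Agent.Lib.Z2.ex n v = nc n v := by
  funext i; cases i <;> rfl

private theorem Br7_ex_sc (X : Set ℕ) (V : ℕ → Set ℕ) : Pool.Agent.Lib.Z2.ex X V = sc X V := by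
  funext i; cases i <;> rfl

private theorem Br7_add {f g : (ℕ → ℕ) → (ℕ → Set ℕ) → ℕ} (hf : AN f) (hg : AN g) :
    AN (fun v V => f v V + g v V) := by
  have h := Ar.addt (hf.ren (fun i => i + 1) (fun j => j)) (hg.ren (fun i => i + 1) (fun j => j))
    (AN.var 0)
  exact h.congr fun v V => eq_comm

private theorem Br7_mul {f g : (ℕ → ℕ) → (ℕ → Set ℕ) → ℕ} (hf : AN f) (hg : AN g) :
    AN (fun v V => f v V * g v V) := by
  have h := Ar.mult (hf.ren (fun i => i + 1) (fun j => j)) (hg.ren (fun i => i + 1) (fun j => j))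
    (AN.var 0)
  exact h.congr fun v V => eq_comm

private theorem Br7_zero : AN (fun _ _ => 0) := by
  have h : Ar (fun v (_ : ℕ → Set ℕ) => v 0 + v 0 = v 0) := Ar.addv 0 0 0
  exact h.congr fun v V => ⟨fun h => by simp only at h; omega, fun h => by
    change v 0 = 0
    omega⟩

private theorem Br7_one : AN (fun _ _ => 1) := by
  have h : Ar (fun v (_ : ℕ → Set ℕ) => v 0 * v 0 = v 0 ∧ ¬ v 0 + v 0 = v 0) :=
    (Ar.mulv 0 0 0).and (Ar.addv 0 0 0).not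
  refine h.congr fun v V => ⟨fun h => ?_, fun h => ?_⟩
  · simp only at h
    rw [h]
    constructor <;> omega
  · change v 0 = 1
    have h1 : v 0 ≠ 0 := by omega
    have h2 : v 0 * v 0 = v 0 * 1 := by rw [h.1, mul_one]
    exact Nat.eq_of_mul_eq_mul_left (Nat.pos_of_ne_zero h1) h2

private theorem Br7_tm (t : Tm) : AN (fun v _ => t.val v) := by
  induction t with
  | var i => exact AN.var i
  | zero => exact Br7_zero
  | one => exact Br7_one
  | add s t hs ht => exact Br7_add hs ht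
  | mul s t hs ht => exact Br7_mul hs ht

private theorem Br7_eq {f g : (ℕ → ℕ) → (ℕ → Set ℕ) → ℕ} (hf : AN f) (hg : AN g) :
    Ar (fun v V => f v V = g v V) :=
  (Ar.addt hf Br7_zero hg).congr fun v V => by rw [add_zero]

private theorem Br7_lt {f g : (ℕ → ℕ) → (ℕ → Set ℕ) → ℕ} (hf : AN f) (hg : AN g) :
    Ar (fun v V => f v V < g v V) := by
  have h1 : Ar (fun v V => f (fun i => v (i + 1)) V + (v 0 + 1) = g (fun i => v (i + 1)) V) :=
    Ar.addt (hf.ren (fun i => i + 1) (fun j => j)) (Br7_add (AN.var 0) Br7_one)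
      (hg.ren (fun i => i + 1) (fun j => j))
  have h2 := Ar.exN (R := fun n v V => f v V + (n + 1) = g v V) h1
  refine h2.congr fun v V => ⟨fun h => ⟨g v V - f v V - 1, by omega⟩, ?_⟩
  rintro ⟨n, hn⟩
  omega

/-- an arithmetical relation as a formula for all structures -/
private theorem Br7_at {R : (ℕ → ℕ) → (ℕ → Set ℕ) → Prop} (h : Ar R) :
    ∃ ψ : F, ψ.arith ∧ ∀ (M : Set (Set ℕ)) (v : ℕ → ℕ) (V : ℕ → Set ℕ),
      R v V ↔ eval M ∅ ψ v V := by
  obtain ⟨ψ, h1, h2⟩ := h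
  exact ⟨ψ, h1, fun M v V => (h2 v V).trans (eval_arith h1 _ _ _ _ v V)⟩

private theorem Br7_a (φ : Fm) : ∃ ψ : F, (φ.Ar → ψ.arith) ∧
    ∀ (M : Set (Set ℕ)) (v : ℕ → ℕ) (V : ℕ → Set ℕ), φ.Sat M v V ↔ eval M ∅ ψ v V := by
  induction φ with
  | eq s t =>
      obtain ⟨ψ, h1, h2⟩ := Br7_at (Br7_eq (Br7_tm s) (Br7_tm t))
      exact ⟨ψ, fun _ => h1, h2⟩
  | lt s t =>
      obtain ⟨ψ, h1, h2⟩ := Br7_at (Br7_lt (Br7_tm s) (Br7_tm t))
      exact ⟨ψ, fun _ => h1, h2⟩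
  | mem t i =>
      obtain ⟨ψ, h1, h2⟩ := Br7_at (Ar.mem (Br7_tm t) (AS.var i))
      exact ⟨ψ, fun _ => h1, h2⟩
  | neg φ ih =>
      obtain ⟨ψ, h1, h2⟩ := ih
      exact ⟨.neg ψ, h1, fun M v V => not_congr (h2 M v V)⟩
  | and φ₁ φ₂ ih1 ih2 =>
      obtain ⟨ψ₁, h1, h2⟩ := ih1
      obtain ⟨ψ₂, h3, h4⟩ := ih2
      exact ⟨.and ψ₁ ψ₂, fun h => ⟨h1 h.1, h3 h.2⟩, fun M v V => and_congr (h2 M v V) (h4 M v V)⟩
  | allN φ ih =>
      obtain ⟨ψ, h1, h2⟩ := ih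
      refine ⟨.allN ψ, h1, fun M v V => forall_congr' fun n => ?_⟩
      rw [Br7_ex_nc]
      exact h2 M _ V
  | allS φ ih =>
      obtain ⟨ψ, h1, h2⟩ := ih
      refine ⟨.allS ψ, fun h => h.elim, fun M v V => forall_congr' fun X =>
        imp_congr_right fun _ => ?_⟩
      rw [Br7_ex_sc]
      exact h2 M v _

private theorem Br7_b (ψ : F) : ∃ φ : Fm, (ψ.arith → φ.Ar) ∧
    ∀ (M : Set (Set ℕ)) (v : ℕ → ℕ) (V : ℕ → Set ℕ), φ.Sat M v V ↔ eval M ∅ ψ v V := by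
  induction ψ with
  | fls =>
      refine ⟨.neg (.eq .zero .zero), fun _ => trivial, fun M v V => ⟨fun h => ?_, fun h => ?_⟩⟩
      · exact (h rfl).elim
      · exact h.elim
  | add i j k =>
      exact ⟨.eq (.add (.var i) (.var j)) (.var k), fun _ => trivial, fun M v V => Iff.rfl⟩
  | mul i j k =>
      exact ⟨.eq (.mul (.var i) (.var j)) (.var k), fun _ => trivial, fun M v V => Iff.rfl⟩
  | mem i j => exact ⟨.mem (.var i) j, fun _ => trivial, fun M v V => Iff.rfl⟩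
  | cc j =>
      refine ⟨.neg (.eq .zero .zero), fun _ => trivial, fun M v V => ⟨fun h => ?_, fun h => ?_⟩⟩
      · exact (h rfl).elim
      · exact (Set.notMem_empty _ h).elim
  | neg φ ih =>
      obtain ⟨ψ, h1, h2⟩ := ih
      exact ⟨.neg ψ, h1, fun M v V => not_congr (h2 M v V)⟩
  | and φ₁ φ₂ ih1 ih2 =>
      obtain ⟨ψ₁, h1, h2⟩ := ih1
      obtain ⟨ψ₂, h3, h4⟩ := ih2
      exact ⟨.and ψ₁ ψ₂, fun h => ⟨h1 h.1, h3 h.2⟩, fun M v V => and_congr (h2 M v V) (h4 M v V)⟩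
  | allN φ ih =>
      obtain ⟨ψ, h1, h2⟩ := ih
      refine ⟨.allN ψ, h1, fun M v V => forall_congr' fun n => ?_⟩
      rw [Br7_ex_nc]
      exact h2 M _ V
  | allS φ ih =>
      obtain ⟨ψ, h1, h2⟩ := ih
      refine ⟨.allS ψ, fun h => h.elim, fun M v V => forall_congr' fun X =>
        imp_congr_right fun _ => ?_⟩
      rw [Br7_ex_sc]
      exact h2 M v _

theorem pBr7 : S_Br7 := ⟨Br7_a, Br7_b⟩

end B8d
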