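import Pool.Agent.Lib.MP_8dbd20_lc.Br.Spec

/-! # MP_8dbd20_lc, block Br: translation of the notions of the final statement -/

set_option linter.unusedVariables false

namespace B8d

open Pool.Agent.Lib.Z2 (Str Dfn DF Fa Sat Fm Tm jn pre Shp IsZ2 IsBeta HasAC)

private theorem Br8_ex_nc (n : ℕ) (v : ℕ → ℕ) : Pool.Agent.Lib.Z2.ex n v = nc n v := by
  funext i; cases i <;> rfl

private theorem Br8_ex_sc (X : Set ℕ) (V : ℕ → Set ℕ) : Pool.Agent.Lib.Z2.ex X V = sc X V := by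
  funext i; cases i <;> rfl

private theorem Br8_exS (M : Set (Set ℕ)) (θ : Fm) (v : ℕ → ℕ) (V : ℕ → Set ℕ) :
    θ.exS.Sat M v V ↔ ∃ X ∈ M, θ.Sat M v (sc X V) := by
  have h : θ.exS.Sat M v V ↔ ¬ ∀ X ∈ M, ¬ θ.Sat M v (Pool.Agent.Lib.Z2.ex X V) := Iff.rfl
  rw [h]
  simp only [Br8_ex_sc]
  push Not
  exact Iff.rfl

theorem pBr8 (h7 : S_Br7) : S_Br8 := by
  obtain ⟨ha, hb⟩ := h7
  intro M hM
  refine ⟨⟨fun h => ⟨hM, ?_⟩, ?_⟩, ⟨?_, ?_⟩⟩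
  · intro ψ v V hV
    obtain ⟨φ, _, hφ⟩ := hb ψ
    have h1 := h φ v V hV
    have h2 : {n | eval M ∅ ψ (nc n v) V} = {n | φ.Sat M (Pool.Agent.Lib.Z2.ex n v) V} := by
      ext n
      rw [Set.mem_setOf_eq, Set.mem_setOf_eq, Br8_ex_nc, hφ]
    rw [h2]
    exact h1
  · rintro ⟨_, h⟩ φ v V hV
    obtain ⟨ψ, _, hψ⟩ := ha φ
    have h1 := h ψ v V hV
    have h2 : {n | φ.Sat M (Pool.Agent.Lib.Z2.ex n v) V} = {n | eval M ∅ ψ (nc n v) V} := by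
      ext n
      rw [Set.mem_setOf_eq, Set.mem_setOf_eq, Br8_ex_nc, hψ]
    rw [h2]
    exact h1
  · rintro h R ⟨ψ, hψ, hR⟩ v V hV ⟨X, hX⟩
    obtain ⟨θ, hθ, hsat⟩ := hb ψ
    have h1 : θ.exS.Sat Set.univ v V := by
      rw [Br8_exS]
      refine ⟨X, Set.mem_univ _, ?_⟩
      rw [hsat]
      exact (eval_arith hψ _ _ _ _ v (sc X V)).1 ((hR v (sc X V)).1 hX)
    rw [← h θ v V (hθ hψ) hV, Br8_exS] at h1
    obtain ⟨Y, hY, hY'⟩ := h1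
    refine ⟨Y, hY, ?_⟩
    rw [hsat] at hY'
    exact (hR v (sc Y V)).2 ((eval_arith hψ _ _ _ _ v (sc Y V)).1 hY')
  · intro h θ v V hθ hV
    obtain ⟨ψ, hψ, hsat⟩ := ha θ
    rw [Br8_exS, Br8_exS]
    constructor
    · rintro ⟨X, _, hX⟩
      refine ⟨X, Set.mem_univ _, ?_⟩
      rw [hsat] at hX ⊢
      exact (eval_arith (hψ hθ) _ _ _ _ v (sc X V)).1 hX
    · rintro ⟨X, _, hX⟩
      rw [hsat] at hX
      obtain ⟨Y, hY, hY'⟩ := h (fun v V => eval ∅ ∅ ψ v V) ⟨ψ, hψ hθ, fun _ _ => Iff.rfl⟩ v V hV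
        ⟨X, (eval_arith (hψ hθ) _ _ _ _ v (sc X V)).1 hX⟩
      refine ⟨Y, hY, ?_⟩
      rw [hsat]
      exact (eval_arith (hψ hθ) _ _ _ _ v (sc Y V)).1 hY'

end B8d
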