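import Pool.Agent.Lib.MP_8dbd20_lc.Br.Spec

/-! # MP_8dbd20_lc, block Br: UD relations are Dfn -/

set_option linter.unusedVariables false

namespace B8d

open Pool.Agent.Lib.Z2 (Str Dfn DF Fa Sat Fm Tm jn pre Shp IsZ2 IsBeta HasAC)

theorem pBr9 (h3 : S_Br3) : S_Br9 := by
  intro U C hg hS R hR α _ e E he hE
  obtain ⟨φ, hφ⟩ := hR
  have h1 := h3 (SU U C) φ e E he hE
  refine Dfn.congr h1 fun a ha => ?_
  exact hφ U C hg (e a) (E a) fun i => (hE i).1 a ha

end B8d
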