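import Pool.Agent.Lib.MP_8dbd20_lc.Iface

/-!
# MP_8dbd20_lc, block Br (bridges between the two definability frameworks)

* framework 1 (`Pool.Agent.Lib.MP_8dbd20_lc.Frame*`, namespace `B8d`): formulas `F` with de Bruijn
  variables, `eval U C φ v V`, `Ar R`, `AN f`, `AS t`, `UD R`, `B8d.Good U C`, automation by aesop
  (see Frame4.lean); useful rules: `Ar.allN`, `Ar.exN`, `AN.natRec` (recursion), `AN.beta`,
  `exists_beta`, `Ar.subst`, `UD.subst`, `Ar.s21`-style curried substitution (Frame2.lean).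
* framework 2 (`Pool.Agent.Lib.Z2.*`): algebraic formulas `Fa`, `Sat S φ n X`, `Dfn S P`, `DF S f`,
  `Z2.Good S`; `Z2.L2`: the standard language `Fm`, `Fm.Sat`.
-/

set_option linter.unusedVariables false

namespace B8d

open Pool.Agent.Lib.Z2 (Str Dfn DF Fa Sat Fm Tm jn pre Shp IsZ2 IsBeta HasAC)
open Nat.Partrec (Code)

/-- Br1. Evaluation of a fixed code is arithmetical.
PROOF. Induction on `c`, goal `Ar (fun v V => v 0 ∈ c.eval (v 1))`. `zero, succ, left, right`: the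
value is a total function, use `Ar.eqN` with `AN.const`, `AN.add`, `AN.fst`, `AN.snd`
(`Code.eval` unfolds to `pure`, `Part.mem_some_iff`). `pair cf cg`: `x ∈ eval n` iff
`∃ a b, a ∈ cf.eval n ∧ b ∈ cg.eval n ∧ x = Nat.pair a b`. `comp cf cg`: `∃ a, a ∈ cg.eval n ∧
x ∈ cf.eval a`. `prec cf cg` at `n = ⟨a,m⟩` : `x ∈ eval` iff there is `w` with
`Nat.beta w 0 ∈ cf.eval a`, `∀ i < m, Nat.beta w (i+1) ∈ cg.eval ⟨a,⟨i, Nat.beta w i⟩⟩`,
`Nat.beta w m = x` (induction on `m` with `Code.eval_prec_succ`, `exists_beta` applied to the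
sequence of values). `rfind' cf` at `⟨a,m⟩`: `x ∈ eval` iff `∃ k, x = k + m ∧
0 ∈ cf.eval ⟨a, m+k⟩ ∧ ∀ j < k, ∃ y, y ≠ 0 ∧ y ∈ cf.eval ⟨a, m + j⟩` (`Nat.mem_rfind`; unfold
`Code.eval`). Renaming of the induction hypotheses: `Ar.s20 (R := fun x n => x ∈ c.eval n)`. -/
def S_Br1 : Prop := ∀ c : Code, Ar (fun v _ => v 0 ∈ c.eval (v 1))

/-- Br2. Every algebraic formula is uniformly definable in framework 1.
PROOF. Induction on `φ`. Write `sat φ` for the relation `fun U C v V => Sat (SU U C) φ (v 0) (V 0)`.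
`mem`: `(Ar.memv 0 0).ud`. `isC`: `UD.cv 0`. `neg`, `and`: `UD.not`, `UD.and`. `exN φ`:
`UD.exN` and substitution `v 0 := Nat.pair (v 0) (v 1)` in the induction hypothesis (`UD.s11` with
`R := fun U C n X => Sat (SU U C) φ n X`). `exR φ`: `UD.exS`, set term `jn (V 0) (V 1)` which is `AS`
(its membership is `if k % 2 = 0 then k / 2 ∈ V 0 else k / 2 ∈ V 1`; rewrite as an `∨`).
`subN c φ`: `∃ m, m ∈ c.eval (v 0) ∧ …` with `S_Br1`. `subR c φ`: set term `pre c (V 0)`, which is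
`AS`: `k ∈ pre c X ↔ ∃ m, m + 1 ∈ c.eval k ∧ m ∈ X`. -/
def S_Br2 : Prop := ∀ φ : Fa, UD (fun U C v V => Sat (SU U C) φ (v 0) (V 0))

/-- Br3. Every formula of framework 1 defines a `Dfn` predicate over every good structure of
framework 2 (copy the proof of `Z2.dfn_sat`, new atoms `add, mul` (`Dfn.eq` with `DF.add`,
`DF.mul`), `cc` (`Dfn.isC`)). -/
def S_Br3 : Prop := ∀ (S : Str) [GoodS S] (φ : F) {α : Type} [Shp α] (e : α → ℕ → ℕ)
  (E : α → ℕ → Set ℕ), (∀ i, DF S (fun a => e a i)) → (∀ i, DF S (fun a => E a i)) →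
  Dfn S (fun a => eval S.U S.C φ (e a) (E a))

/-- Br4. Arithmetical relations are `Dfn` over every good structure.
PROOF. Choose the formula of `Ar`, `eval_arith`, `S_Br3`. -/
def S_Br4 : Prop := ∀ (S : Str) [GoodS S] (R : (ℕ → ℕ) → (ℕ → Set ℕ) → Prop), Ar R →
  ∀ {α : Type} [Shp α] (e : α → ℕ → ℕ) (E : α → ℕ → Set ℕ), (∀ i, DF S (fun a => e a i)) →
  (∀ i, DF S (fun a => E a i)) → Dfn S (fun a => R (e a) (E a))

/-- Br5. Good structures of framework 1 are good in framework 2.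
PROOF. `cu, pu` trivial (`Pm = U`), `pe`: the empty set is `{n | False}`, in `U` by `ArClosed` (take
any member of `U` for the parameters), `pj, uj`: `jn` is `AS` (see Br2), `AS.closed`; `up`:
`pre c` is `AS` by `S_Br1`; `uc`: complement; `ux`: `Ar.exN`. -/
def S_Br5 : Prop := ∀ U C : Set (Set ℕ), Good U C → GoodS (SU U C)

/-- Br6. `Dfn` classes of numbers, and of pairs (number, real), are defined by a formula of
framework 1 with parameters in `U`.
PROOF. `Dfn (SU U C) P` gives `φ : Fa`, `A ∈ U` with `P a ↔ Sat (SU U C) φ (num a) (jn A (re a))`.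
For `a : ℕ`: `num a = a` (`Encodable.encode` on `ℕ` is the identity), `re a = ∅`. For
`a = (n, X) : ℕ × Set ℕ`: `num a = Nat.pair n 0` and `re a = jn ∅ X` (look at the instances in
`Z2/Shape.lean`). By `S_Br2` and `UD.subst` (terms `Nat.pair (v 0) 0` and `jn (V 1) (jn ∅ (V 0))`,
`V 1 := A`) there is a formula `ψ` of framework 1 with the required property; valuation of the
remaining variables: `V i := A`. -/
def S_Br6 : Prop := ∀ U C : Set (Set ℕ), Good U C →
  (∀ P : ℕ → Prop, Dfn (SU U C) P → ∃ (ψ : F) (A : Set ℕ), A ∈ U ∧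
    ∀ n, P n ↔ eval U C ψ (nc n fun _ => 0) (fun _ => A)) ∧
  (∀ P : ℕ → Set ℕ → Prop, Dfn (SU U C) (fun x : ℕ × Set ℕ => P x.1 x.2) →
    ∃ (ψ : F) (A : Set ℕ), A ∈ U ∧
    ∀ n, ∀ X ∈ U, (P n X ↔ eval U C ψ (nc n fun _ => 0) (sc X fun _ => A))) ∧
  (∀ P : Set ℕ → Prop, Dfn (SU U C) P → ∃ (ψ : F) (A : Set ℕ), A ∈ U ∧
    ∀ X ∈ U, (P X ↔ eval U C ψ (fun _ => 0) (sc X fun _ => A)))

/-- Br7. The standard language and framework 1 with `C = ∅` have the same expressive power.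
PROOF. (a) `Fm → F` by induction on `φ`; for terms: every term value is `AN` in the sense of
framework 1 (induction: `AN.var`, `AN.const`, `AN.add`, `AN.mul`), so atoms `eq, lt, mem` are `Ar`
relations; `neg, and, allN, allS` are the same constructors. To keep the arithmetical class, prove
simultaneously `φ.Ar → ψ.arith`. Note `Z2.ex n e = nc n e` and `Z2.ex X E = sc X E` (funext, cases).
(b) `F → Fm`: `fls ↦ neg (eq zero zero)`, `add i j k ↦ eq (add (var i) (var j)) (var k)`, `mul`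
likewise, `mem i j ↦ mem (var i) j`, `cc j ↦ neg (eq zero zero)`, the rest the same. -/
def S_Br7 : Prop :=
  (∀ φ : Fm, ∃ ψ : F, (φ.Ar → ψ.arith) ∧
    ∀ (M : Set (Set ℕ)) (v : ℕ → ℕ) (V : ℕ → Set ℕ), φ.Sat M v V ↔ eval M ∅ ψ v V) ∧
  (∀ ψ : F, ∃ φ : Fm, (ψ.arith → φ.Ar) ∧
    ∀ (M : Set (Set ℕ)) (v : ℕ → ℕ) (V : ℕ → Set ℕ), φ.Sat M v V ↔ eval M ∅ ψ v V)

/-- Br8. Translation of the notions of the final statement.
PROOF. From `S_Br7`. (`IsBeta → BetaI`: `(∃ X, R v (sc X V)) ↔ exS θ true in univ`; note that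
`θ.exS.Sat M v V ↔ ∃ X ∈ M, θ.Sat M v (ex X V)` by unfolding, and that arithmetical formulas have the
same truth value in all `M`; conversely likewise, `M`-truth implies truth in `univ` trivially.) -/
def S_Br8 : Prop := ∀ M : Set (Set ℕ), M.Nonempty →
  ((IsZ2 M ↔ Mod2 M) ∧ (IsBeta M ↔ BetaI M))

/-- Br9. A relation given by `UD`, evaluated in a structure of framework 2, is `Dfn`
(for structures good in both senses).
PROOF. `UD R` gives one formula `φ` with `R U C v V ↔ eval U C φ v V` for valuations in `U`; then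
`S_Br3` and `Dfn.congr` (valid arguments have `E a i ∈ U` by `DF`). -/
def S_Br9 : Prop := ∀ (U C : Set (Set ℕ)), Good U C → GoodS (SU U C) →
  ∀ (R : Set (Set ℕ) → Set (Set ℕ) → (ℕ → ℕ) → (ℕ → Set ℕ) → Prop), UD R →
  ∀ {α : Type} [Shp α] (e : α → ℕ → ℕ) (E : α → ℕ → Set ℕ), (∀ i, DF (SU U C) (fun a => e a i)) →
  (∀ i, DF (SU U C) (fun a => E a i)) → Dfn (SU U C) (fun a => R U C (e a) (E a))

end B8d
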